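import Mathlib

/-!
# Project BP (MP_64ff02_ag): definitions for the function theory half

`Sub u z₀ c`: `u z₀ > 0` and `log u` has Laplacian at least `4 c` at `z₀` in the sense of lower supports: for every `c' < c` there is a
holomorphic `h` near `z₀` with `|h z₀| = u z₀` and `|h z| exp(c' |z - z₀|²) ≤ u z` near `z₀`.

The ambient space is `E = EN N = ℂ^(N+1)` with the Euclidean norm.  `wd x v = |x ∧ v|`, `fs x v = |x ∧ v|/|x|²` is the Fubini-Study length
of the vector `v` at `[x]`.  A subset of projective space is described by its cone `K` (without `0`).  `mt G F z = G (F z) (F' z)`.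
-/

set_option autoImplicit false

namespace Pool.Agent.H36.BP

open Filter Topology

/-- `ℂ^(N+1)` with the Euclidean norm -/
abbrev EN (N : ℕ) : Type := EuclideanSpace ℂ (Fin (N + 1))

variable {N : ℕ}

/-- `|x ∧ v|` -/
noncomputable def wd (x v : EN N) : ℝ := Real.sqrt (‖x‖ ^ 2 * ‖v‖ ^ 2 - ‖inner ℂ x v‖ ^ 2)

/-- the Fubini-Study length of `v` at `x` -/
noncomputable def fs (x v : EN N) : ℝ := wd x v / ‖x‖ ^ 2

end Pool.Agent.H36.BP
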