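import Pool.Agent.H94.CB.M20

/-!
# BP WdA: the wedge norm

`wd x v = |x ∧ v|`, square root of the Gram determinant.  `gram_proj` : for orthonormal `a, b` the determinant of the projections is at most the
Gram determinant: with `x = Px + x'`, `v = Pv + v'` (orthogonal decomposition along the span of `a, b`), `A = |Px|²`, `B = |Pv|²`, `C = ⟨Px,Pv⟩`,
`(A + a')(B + b') - |C + c'|² ≥ AB - |C|²` because `a'b' ≥ |c'|²` and `A b' + a' B ≥ 2 (A B a' b')^(1/2) ≥ 2 |C||c'|`; and `AB - |C|² = |det|²`.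
`wd_norming` : for `x, v` with `wd x v > 0` take `a = x/|x|`, `b` = normalised component of `v` orthogonal to `x`.
-/

set_option autoImplicit false

namespace Pool.Agent.H36.BP

attribute [-instance] ProperSMul.toContinuousSMul

open Filter Topology Metric

variable {N : ℕ}

private theorem WdA_add (x v : EN N) (a : ℂ) : wd x (v + a • x) = wd x v := by
  have h := wd_inv x v 1 a
  rw [one_smul, one_smul, norm_one] at h
  rw [h]
  ring

private theorem WdA_orth {x w : EN N} (h : inner ℂ x w = (0 : ℂ)) : wd x w = ‖x‖ * ‖w‖ := by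
  unfold wd
  rw [h, norm_zero, ← mul_pow]
  rw [show (‖x‖ * ‖w‖) ^ 2 - (0 : ℝ) ^ 2 = (‖x‖ * ‖w‖) ^ 2 by ring]
  exact Real.sqrt_sq (by positivity)

theorem wd_eq_zero {x v : EN N} (hx : x ≠ 0) : wd x v = 0 ↔ ∃ a : ℂ, v = a • x := by
  constructor
  · intro h
    set s : ℂ := inner ℂ x v / inner ℂ x x with hs
    have hxx : (inner ℂ x x : ℂ) ≠ 0 := by
      rw [Ne, inner_self_eq_zero]
      exact hx
    refine ⟨s, ?_⟩
    have ho : inner ℂ x (v + (-s) • x) = (0 : ℂ) := by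
      rw [inner_add_right, inner_smul_right, hs]
      field_simp
      ring
    have h1 := WdA_orth ho
    rw [WdA_add, h] at h1
    have h2 : ‖v + (-s) • x‖ = 0 := by
      have hxn : ‖x‖ ≠ 0 := norm_ne_zero_iff.mpr hx
      rcases mul_eq_zero.mp h1.symm with h3 | h3
      · exact absurd h3 hxn
      · exact h3
    have h3 : v + (-s) • x = 0 := norm_eq_zero.mp h2
    rw [neg_smul, ← sub_eq_add_neg, sub_eq_zero] at h3
    exact h3
  · rintro ⟨a, rfl⟩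
    have h := WdA_add x 0 a
    rw [zero_add] at h
    rw [h]
    unfold wd
    simp

/-- real form of the inequality between the two Gram determinants -/
private theorem WdA_ineq {A B a' b' : ℝ} {C c' : ℂ} (hA : 0 ≤ A) (hB : 0 ≤ B) (ha : 0 ≤ a') (hb : 0 ≤ b')
    (hC : ‖C‖ ^ 2 ≤ A * B) (hc : ‖c'‖ ^ 2 ≤ a' * b') :
    A * B - ‖C‖ ^ 2 ≤ (A + a') * (B + b') - ‖C + c'‖ ^ 2 := by
  have h1 : ‖C + c'‖ ≤ ‖C‖ + ‖c'‖ := norm_add_le _ _
  have h2 : ‖C + c'‖ ^ 2 ≤ (‖C‖ + ‖c'‖) ^ 2 := pow_le_pow_left₀ (norm_nonneg _) h1 2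
  have h3 : 2 * (‖C‖ * ‖c'‖) ≤ A * b' + a' * B := by
    refine le_of_sq_le_sq' ?_ (by positivity)
    have h4 : (‖C‖ * ‖c'‖) ^ 2 ≤ (A * B) * (a' * b') := by
      rw [mul_pow]
      exact mul_le_mul hC hc (by positivity) (by positivity)
    nlinarith [sq_nonneg (A * b' - a' * B)]
  nlinarith

theorem gram_proj {a b : EN N} (ha : ‖a‖ = 1) (hb : ‖b‖ = 1) (hab : inner ℂ a b = (0 : ℂ)) (x v : EN N) :
    ‖(inner ℂ a x : ℂ) * inner ℂ b v - inner ℂ b x * inner ℂ a v‖ ≤ wd x v := by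
  have haa : (inner ℂ a a : ℂ) = 1 := by rw [WdA_nn, ha]; norm_num
  have hbb : (inner ℂ b b : ℂ) = 1 := by rw [WdA_nn, hb]; norm_num
  have hba : (inner ℂ b a : ℂ) = 0 := by
    rw [← inner_conj_symm, hab, map_zero]
  set x1 : ℂ := inner ℂ a x with hx1
  set x2 : ℂ := inner ℂ b x with hx2
  set v1 : ℂ := inner ℂ a v with hv1
  set v2 : ℂ := inner ℂ b v with hv2
  set x' : EN N := x - x1 • a - x2 • b with hx'
  set v' : EN N := v - v1 • a - v2 • b with hv'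
  have hxa : (inner ℂ x a : ℂ) = (starRingEnd ℂ) x1 := by rw [hx1, inner_conj_symm]
  have hxb : (inner ℂ x b : ℂ) = (starRingEnd ℂ) x2 := by rw [hx2, inner_conj_symm]
  have hva : (inner ℂ v a : ℂ) = (starRingEnd ℂ) v1 := by rw [hv1, inner_conj_symm]
  have hvb : (inner ℂ v b : ℂ) = (starRingEnd ℂ) v2 := by rw [hv2, inner_conj_symm]
  have key : ∀ y z : EN N, ∀ y1 y2 z1 z2 : ℂ, inner ℂ a y = y1 → inner ℂ b y = y2 → inner ℂ a z = z1 → inner ℂ b z = z2 →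
      (inner ℂ y z : ℂ) = (starRingEnd ℂ) y1 * z1 + (starRingEnd ℂ) y2 * z2 +
        inner ℂ (y - y1 • a - y2 • b) (z - z1 • a - z2 • b) := by
    intro y z y1 y2 z1 z2 h1 h2 h3 h4
    have h5 : (inner ℂ y a : ℂ) = (starRingEnd ℂ) y1 := by rw [← h1, inner_conj_symm]
    have h6 : (inner ℂ y b : ℂ) = (starRingEnd ℂ) y2 := by rw [← h2, inner_conj_symm]
    simp only [inner_sub_left, inner_sub_right, inner_smul_left, inner_smul_right, haa, hbb, hab, hba, h3, h4, h5, h6]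
    ring
  have hxx := key x x x1 x2 x1 x2 hx1.symm hx2.symm hx1.symm hx2.symm
  have hvv := key v v v1 v2 v1 v2 hv1.symm hv2.symm hv1.symm hv2.symm
  have hxv := key x v x1 x2 v1 v2 hx1.symm hx2.symm hv1.symm hv2.symm
  rw [← hx'] at hxx hxv
  rw [← hv'] at hvv hxv
  have hnx : ‖x‖ ^ 2 = (‖x1‖ ^ 2 + ‖x2‖ ^ 2) + ‖x'‖ ^ 2 := by
    have h := hxx
    rw [WdA_nn, WdA_nn, Complex.conj_mul', Complex.conj_mul'] at h
    exact_mod_cast h
  have hnv : ‖v‖ ^ 2 = (‖v1‖ ^ 2 + ‖v2‖ ^ 2) + ‖v'‖ ^ 2 := by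
    have h := hvv
    rw [WdA_nn, WdA_nn, Complex.conj_mul', Complex.conj_mul'] at h
    exact_mod_cast h
  have hdet : ‖x1 * v2 - x2 * v1‖ ^ 2 = (‖x1‖ ^ 2 + ‖x2‖ ^ 2) * (‖v1‖ ^ 2 + ‖v2‖ ^ 2) -
      ‖(starRingEnd ℂ) x1 * v1 + (starRingEnd ℂ) x2 * v2‖ ^ 2 := by
    have h : (((‖x1 * v2 - x2 * v1‖ ^ 2 : ℝ)) : ℂ) = (((‖x1‖ ^ 2 + ‖x2‖ ^ 2) * (‖v1‖ ^ 2 + ‖v2‖ ^ 2) -
      ‖(starRingEnd ℂ) x1 * v1 + (starRingEnd ℂ) x2 * v2‖ ^ 2 : ℝ) : ℂ) := by
      push_cast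
      rw [← Complex.conj_mul', ← Complex.conj_mul', ← Complex.conj_mul', ← Complex.conj_mul', ← Complex.conj_mul',
        ← Complex.conj_mul']
      simp only [map_add, map_sub, map_mul, Complex.conj_conj]
      ring
    exact_mod_cast h
  have hC : ‖(starRingEnd ℂ) x1 * v1 + (starRingEnd ℂ) x2 * v2‖ ^ 2 ≤ (‖x1‖ ^ 2 + ‖x2‖ ^ 2) * (‖v1‖ ^ 2 + ‖v2‖ ^ 2) := by
    have := sq_nonneg ‖x1 * v2 - x2 * v1‖
    linarith
  have hc : ‖(inner ℂ x' v' : ℂ)‖ ^ 2 ≤ ‖x'‖ ^ 2 * ‖v'‖ ^ 2 := by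
    have := WdA_rad x' v'
    linarith
  have hfin := WdA_ineq (by positivity) (by positivity) (by positivity) (by positivity) hC hc
  refine le_of_sq_le_sq' ?_ (wd_nonneg x v)
  rw [wd_sq, hxv, hnx, hnv, hdet]
  exact hfin

theorem wd_norming {x v : EN N} (h : 0 < wd x v) : ∃ a b : EN N, ‖a‖ = 1 ∧ ‖b‖ = 1 ∧ inner ℂ a b = (0 : ℂ) ∧
    ‖(inner ℂ a x : ℂ) * inner ℂ b v - inner ℂ b x * inner ℂ a v‖ = wd x v := by
  have hx : x ≠ 0 := by
    rintro rfl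
    have h1 := wd_le (0 : EN N) v
    rw [norm_zero, zero_mul] at h1
    linarith
  have hxn : ‖x‖ ≠ 0 := norm_ne_zero_iff.mpr hx
  have hxx : (inner ℂ x x : ℂ) ≠ 0 := by
    rw [Ne, inner_self_eq_zero]
    exact hx
  set s : ℂ := inner ℂ x v / inner ℂ x x with hs
  set w : EN N := v + (-s) • x with hw
  have ho : inner ℂ x w = (0 : ℂ) := by
    rw [hw, inner_add_right, inner_smul_right, hs]
    field_simp
    ring
  have ho' : inner ℂ w x = (0 : ℂ) := by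
    rw [← inner_conj_symm, ho, map_zero]
  have hwd : wd x v = ‖x‖ * ‖w‖ := by
    rw [← WdA_orth ho, hw, WdA_add]
  have hwn : ‖w‖ ≠ 0 := by
    intro h0
    rw [hwd, h0, mul_zero] at h
    exact lt_irrefl _ h
  have hvw : v = w + s • x := by
    rw [hw, neg_smul]
    abel
  have hwv : (inner ℂ w v : ℂ) = (((‖w‖ : ℝ)) : ℂ) ^ 2 := by
    conv_lhs => rw [hvw]
    rw [inner_add_right, inner_smul_right, ho', WdA_nn]
    ring
  refine ⟨((((‖x‖ : ℝ)) : ℂ)⁻¹) • x, ((((‖w‖ : ℝ)) : ℂ)⁻¹) • w, ?_, ?_, ?_, ?_⟩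
  · rw [norm_smul, norm_inv, Complex.norm_real, norm_norm]
    exact inv_mul_cancel₀ hxn
  · rw [norm_smul, norm_inv, Complex.norm_real, norm_norm]
    exact inv_mul_cancel₀ hwn
  · rw [inner_smul_left, inner_smul_right, ho]
    ring
  · have hxC : (((‖x‖ : ℝ)) : ℂ) ≠ 0 := Complex.ofReal_ne_zero.mpr hxn
    have hwC : (((‖w‖ : ℝ)) : ℂ) ≠ 0 := Complex.ofReal_ne_zero.mpr hwn
    rw [inner_smul_left, inner_smul_left, inner_smul_left, inner_smul_left, ho', hwv, WdA_nn, map_inv₀, map_inv₀, Complex.conj_ofReal,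
      Complex.conj_ofReal]
    have h1 : ((((‖x‖ : ℝ)) : ℂ)⁻¹) * (((‖x‖ : ℝ)) : ℂ) ^ 2 * (((((‖w‖ : ℝ)) : ℂ)⁻¹) * (((‖w‖ : ℝ)) : ℂ) ^ 2) -
        ((((‖w‖ : ℝ)) : ℂ)⁻¹) * 0 * (((((‖x‖ : ℝ)) : ℂ)⁻¹) * inner ℂ x v) = (((‖x‖ * ‖w‖ : ℝ)) : ℂ) := by
      push_cast
      field_simp
      ring
    rw [h1, Complex.norm_real, Real.norm_of_nonneg (by positivity), hwd]

end Pool.Agent.H36.BP
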